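import Pool.Agent.N206.CG.Stm

/-!
Project CG (MP_216434_al): rules for the sections of automorphisms, part A (helper476).
-/

set_option autoImplicit false

namespace Pool.Agent.N476.CG

open Pool.Agent.N206.CG

variable {L : Loc} (S : Sys L)

/-- `D (n + 1)` is not trivial -/
theorem exists_ne_one (n : ℕ) : ∃ g : S.D n, g ≠ 1 := by
  obtain ⟨x, -, y, -, hxy⟩ := L.X_two n
  obtain ⟨g, hg⟩ := S.exists_rt n x y
  refine ⟨S.rt n g, fun h1 => hxy ?_⟩
  rw [h1, map_one, Equiv.Perm.one_apply] at hg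
  exact hg

/-- the decomposition of an automorphism is unique -/
theorem adec_uniq (h : S_D1 S) {n : ℕ} {α : MulAut (S.D n)} {σ : Equiv.Perm (L.E n)}
    {a : L.E n → MulAut (S.D (n + 1))} (H : S.ADec n α σ a) :
    S.sg n α = σ ∧ S.asc n α = a := by
  have e : ∀ x g, S.lam n (S.sg n α x) (S.asc n α x g) = S.lam n (σ x) (a x g) := by
    intro x g
    rw [← h n α x g, H x g]
  have h1 : ∀ x, S.sg n α x = σ x := by
    intro x
    by_contra hne
    obtain ⟨g, hg⟩ := exists_ne_one S (n + 1)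
    have h2 := congrArg (fun d => S.sec n d (S.sg n α x)) (e x g)
    simp only [Sys.sec_lam_self] at h2
    rw [S.sec_lam_ne n _ _ _ hne] at h2
    apply hg
    apply (S.asc n α x).injective
    rw [h2, map_one]
  refine ⟨Equiv.ext h1, ?_⟩
  funext x
  apply MulEquiv.ext
  intro g
  have h3 := e x g
  rw [h1 x] at h3
  exact S.lam_inj n _ _ _ h3

theorem rl_mul (h : S_D1 S) (n : ℕ) (α β : MulAut (S.D n)) :
    S.sg n (α * β) = S.sg n α * S.sg n β ∧
      S.asc n (α * β) = fun x => S.asc n α (S.sg n β x) * S.asc n β x := by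
  apply adec_uniq S h
  intro x g
  rw [MulAut.mul_apply, h n β x g, h n α]
  rfl

theorem rl_one (h : S_D1 S) (n : ℕ) :
    S.sg n 1 = 1 ∧ S.asc n 1 = fun _ => 1 := by
  apply adec_uniq S h
  intro x g
  rfl

theorem rl_conj (h : S_D1 S) (n : ℕ) (e : S.D n) :
    S.sg n (MulAut.conj e) = S.root n e ∧
      S.asc n (MulAut.conj e) = fun x => MulAut.conj (S.sec n e x) := by
  apply adec_uniq S h
  intro x g
  rw [MulAut.conj_apply, S.conj_lam, MulAut.conj_apply]

theorem rl_sg_inv (h : S_D1 S) (n : ℕ) (α : MulAut (S.D n)) :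
    S.sg n α⁻¹ = (S.sg n α)⁻¹ := by
  have h1 := (rl_mul S h n α⁻¹ α).1
  rw [inv_mul_cancel, (rl_one S h n).1] at h1
  exact eq_inv_of_mul_eq_one_left h1.symm

theorem rl_asc_inv (h : S_D1 S) (n : ℕ) (α : MulAut (S.D n)) (x : L.E n) :
    S.asc n α⁻¹ (S.sg n α x) = (S.asc n α x)⁻¹ := by
  have h1 := congrFun (rl_mul S h n α⁻¹ α).2 x
  rw [inv_mul_cancel, (rl_one S h n).2] at h1
  exact eq_inv_of_mul_eq_one_left h1.symm

theorem rl_conj_inj (hz : S_Z S) (n : ℕ) (d e : S.D n) (hde : MulAut.conj d = MulAut.conj e) :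
    d = e := by
  have h1 : e⁻¹ * d = 1 := by
    apply hz n
    intro g
    have h2 := congrArg (fun f : MulAut (S.D n) => f g) hde
    simp only [MulAut.conj_apply] at h2
    calc e⁻¹ * d * g = e⁻¹ * (d * g * d⁻¹) * d := by group
      _ = e⁻¹ * (e * g * e⁻¹) * d := by rw [h2]
      _ = g * (e⁻¹ * d) := by group
  exact (inv_mul_eq_one.1 h1).symm

theorem comm_conj {G : Type} [Group G] (α : MulAut G) (d : G) :
    α * MulAut.conj d = MulAut.conj (α d) * α := by
  apply MulEquiv.ext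
  intro g
  simp only [MulAut.mul_apply, MulAut.conj_apply, map_mul, map_inv]

theorem rl_root_ap (h : S_D1 S) (n : ℕ) (α : MulAut (S.D n)) (d : S.D n) :
    S.root n (α d) = S.sg n α * S.root n d * (S.sg n α)⁻¹ := by
  have h1 := congrArg (S.sg n) (comm_conj α d)
  rw [(rl_mul S h n _ _).1, (rl_mul S h n _ _).1, (rl_conj S h n d).1,
    (rl_conj S h n (α d)).1] at h1
  rw [h1, mul_inv_cancel_right]

theorem rl_comm_ap (h : S_D1 S) (n : ℕ) (α : MulAut (S.D n)) (d : S.D n) (x : L.E n) :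
    S.asc n α (S.root n d x) * MulAut.conj (S.sec n d x) =
      MulAut.conj (S.sec n (α d) (S.sg n α x)) * S.asc n α x := by
  have h1 := congrArg (fun f => S.asc n f x) (comm_conj α d)
  change S.asc n (α * MulAut.conj d) x = S.asc n (MulAut.conj (α d) * α) x at h1
  rw [(rl_mul S h n _ _).2, (rl_mul S h n _ _).2, (rl_conj S h n d).1,
    (rl_conj S h n d).2, (rl_conj S h n (α d)).2] at h1
  exact h1

theorem rl_sec_ap (h : S_D1 S) (hz : S_Z S) (n : ℕ) (α : MulAut (S.D n)) (d : S.D n)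
    (x : L.E n) (hd : S.root n d = 1) :
    S.sec n (α d) (S.sg n α x) = S.asc n α x (S.sec n d x) := by
  have h1 := rl_comm_ap S h n α d x
  rw [hd, Equiv.Perm.one_apply, comm_conj (S.asc n α x) (S.sec n d x)] at h1
  exact (rl_conj_inj S hz (n + 1) _ _ (mul_right_cancel h1)).symm

theorem rl_sg_mem (h : S_D1 S) (n : ℕ) (α : MulAut (S.D n)) (g : Equiv.Perm (L.E n))
    (hg : g ∈ L.P n) : S.sg n α * g * (S.sg n α)⁻¹ ∈ L.P n := by
  have h1 := rl_root_ap S h n α (S.rt n ⟨g, hg⟩)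
  rw [S.root_rt] at h1
  have h2 := S.root_mem n (α (S.rt n ⟨g, hg⟩))
  rw [h1] at h2
  exact h2

theorem t_RULA {L : Loc} (S : Sys L) (h : S_D1 S) (hz : S_Z S) : RulesA S where
  sg_mul n α β := (rl_mul S h n α β).1
  asc_mul n α β x := congrFun (rl_mul S h n α β).2 x
  sg_one n := (rl_one S h n).1
  asc_one n x := congrFun (rl_one S h n).2 x
  sg_inv n α := rl_sg_inv S h n α
  asc_inv n α x := rl_asc_inv S h n α x
  sg_conj n e := (rl_conj S h n e).1
  asc_conj n e x := congrFun (rl_conj S h n e).2 x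
  conj_inj n d e hde := rl_conj_inj S hz n d e hde
  root_ap n α d := rl_root_ap S h n α d
  comm_ap n α d x := rl_comm_ap S h n α d x
  sec_ap n α d x hd := rl_sec_ap S h hz n α d x hd
  sg_P n α g := by
    refine ⟨fun hg => rl_sg_mem S h n α g hg, fun hg => ?_⟩
    have h1 := rl_sg_mem S h n α⁻¹ _ hg
    rw [rl_sg_inv S h n α] at h1
    have e : (S.sg n α)⁻¹ * (S.sg n α * g * (S.sg n α)⁻¹) * (S.sg n α)⁻¹⁻¹ = g := by group
    rwa [e] at h1

end Pool.Agent.N476.CG
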