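import Pool.Agent.N206.CG.Af

/-!
Project CG, leaf F1: the special letters modulo p.
-/

namespace Pool.Agent.N476.CG

open Pool.Agent.N206.CG Pool.Agent.N206.CG.Af

theorem cast_small {p : ℕ} (hp : 1000 ≤ p) {a b : ℤ} (ha : -500 < a ∧ a < 500)
    (hb : -500 < b ∧ b < 500) (h : (a : ZMod p) = (b : ZMod p)) : a = b := by
  have h1 := (ZMod.intCast_eq_intCast_iff_dvd_sub a b p).1 h
  have h2 : b - a = 0 := by
    apply Int.eq_zero_of_abs_lt_dvd h1
    rw [abs_lt]
    constructor <;> omega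
  omega

/-- the vector with row `k` equal to `u` and the other row zero -/
def vec (p : ℕ) (k : Fin 2) (u : Fin 5 → ℤ) (hu : ∑ i, u i = 0) : EE (ZMod p) :=
  ⟨fun k' i => if k' = k then ((u i : ℤ) : ZMod p) else 0, by
    intro k'
    by_cases h : k' = k
    · simp only [h, if_true]
      rw [← Int.cast_sum, hu, Int.cast_zero]
    · simp [h]⟩

theorem vec_apply (p : ℕ) (k : Fin 2) (u : Fin 5 → ℤ) (hu : ∑ i, u i = 0) (k' : Fin 2)
    (i : Fin 5) : (vec p k u hu).1 k' i = if k' = k then ((u i : ℤ) : ZMod p) else 0 := rfl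

theorem TT_sum : ∀ u ∈ TT, ∑ i, u i = 0 := by decide

theorem TT_small : ∀ u ∈ TT, ∀ i, -500 < u i ∧ u i < 500 := by decide

theorem TT_four : ∀ u ∈ TT, u 4 < 0 := by decide

theorem TT_other : ∀ u ∈ TT, ∀ i, i ≠ 4 → 0 ≤ u i := by decide

theorem TT_w : ![0, 1, 1, 1, -3] ∉ TT := by decide

theorem TT_w_add : ∀ u ∈ TT, ∀ v ∈ TT, (∀ i, u i + ![0, 1, 1, 1, -3] i = v i) →
    u = ![1, 0, 0, 0, -1] := by decide

theorem TT_small_add : ∀ u ∈ TT, ∀ i, -500 < u i + ![0, 1, 1, 1, -3] i ∧
    u i + ![0, 1, 1, 1, -3] i < 500 := by decide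

theorem e_mem : ![1, 0, 0, 0, -1] ∈ TT := by decide

theorem f_mem : ![1, 1, 1, 1, -4] ∈ TT := by decide

theorem e_sum : ∑ i, ![(1 : ℤ), 0, 0, 0, -1] i = 0 := by decide

theorem w_sum : ∑ i, ![(0 : ℤ), 1, 1, 1, -3] i = 0 := by decide

theorem w_small : ∀ i, -500 < ![(0 : ℤ), 1, 1, 1, -3] i ∧ ![(0 : ℤ), 1, 1, 1, -3] i < 500 := by
  decide

theorem fin2 (k : Fin 2) : k = 0 ∨ k = 1 := by
  fin_cases k
  · exact Or.inl rfl
  · exact Or.inr rfl

theorem vec_mem (p : ℕ) (k : Fin 2) (u : Fin 5 → ℤ) (hu : ∑ i, u i = 0) (h : u ∈ TT) :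
    vec p k u hu ∈ XX (ZMod p) := ⟨k, u, h, fun _ _ => rfl⟩

theorem zero_app (p : ℕ) (k : Fin 2) (i : Fin 5) : (0 : EE (ZMod p)).1 k i = 0 := rfl

theorem int_zero_small : -500 < (0 : ℤ) ∧ (0 : ℤ) < 500 := by decide

theorem f1_one {p : ℕ} (hp : 1000 ≤ p) : (0 : EE (ZMod p)) ∉ XX (ZMod p) := by
  rintro ⟨k, u, hu, h⟩
  have h1 := h k 4
  rw [zero_app, if_pos rfl] at h1
  have h2 := cast_small hp int_zero_small (TT_small u hu 4) (by rw [Int.cast_zero]; exact h1)
  have h3 := TT_four u hu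
  omega

theorem f1_two {p : ℕ} (hp : 1000 ≤ p) : ∃ x ∈ XX (ZMod p), ∃ y ∈ XX (ZMod p), x ≠ y := by
  refine ⟨vec p 0 _ e_sum, vec_mem p 0 _ e_sum e_mem, vec p 1 _ e_sum,
    vec_mem p 1 _ e_sum e_mem, ?_⟩
  intro h
  have h1 := congrArg (fun z : EE (ZMod p) => z.1 0 0) h
  simp only [vec_apply] at h1
  have h2 : ((1 : ℤ) : ZMod p) = ((0 : ℤ) : ZMod p) := by
    simpa using h1
  have h3 := cast_small hp (by decide) (by decide) h2
  omega

/-- the linear part used in the third statement -/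
def aa : Equiv.Perm (Fin 5) := Equiv.swap 0 1 * Equiv.swap 2 4

theorem aa_mem : aa ∈ alternatingGroup (Fin 5) := by
  rw [Equiv.Perm.mem_alternatingGroup]
  decide

theorem aa_four : aa⁻¹ 4 ≠ 4 := by decide

theorem f1_three {p : ℕ} (hp : 1000 ≤ p) :
    ∃ g ∈ PP (ZMod p), g 0 = 0 ∧ ∀ x ∈ XX (ZMod p), g x ∉ XX (ZMod p) := by
  refine ⟨act ⟨⟨aa, aa_mem⟩, 0⟩, ⟨_, rfl⟩, ?_, ?_⟩
  · rw [act_apply, pa_zero, add_zero]
  · rintro x ⟨k, u, hu, h⟩ ⟨k2, u2, hu2, h2⟩
    have h3 := h2 k2 4
    rw [act_apply, zero_add, if_pos rfl] at h3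
    change x.1 k2 (aa⁻¹ 4) = _ at h3
    rw [h] at h3
    have h4 := TT_four u2 hu2
    by_cases hk : k2 = k
    · rw [if_pos hk] at h3
      have h5 := cast_small hp (TT_small u hu _) (TT_small u2 hu2 4) h3
      have h6 := TT_other u hu _ aa_four
      omega
    · rw [if_neg hk] at h3
      have h5 := cast_small hp int_zero_small (TT_small u2 hu2 4)
        (by rw [Int.cast_zero]; exact h3)
      omega

theorem f1_four {p : ℕ} (hp : 1000 ≤ p) :
    ∃ h ∈ PP (ZMod p), ∃ x ∈ XX (ZMod p), h x ∈ XX (ZMod p) ∧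
    ∀ y, (y = 0 ∨ y ∈ XX (ZMod p)) → (h y = 0 ∨ h y ∈ XX (ZMod p)) → y = x := by
  have hh : ∀ y : EE (ZMod p), ∀ k i, (tr (vec p 0 _ w_sum) y).1 k i =
      (if k = 0 then ((![(0 : ℤ), 1, 1, 1, -3] i : ℤ) : ZMod p) else 0) + y.1 k i := by
    intro y k i
    rfl
  refine ⟨tr (vec p 0 _ w_sum), ⟨_, rfl⟩, vec p 0 _ e_sum, vec_mem p 0 _ e_sum e_mem, ?_, ?_⟩
  · refine ⟨0, _, f_mem, ?_⟩
    intro k i
    rw [hh, vec_apply]
    rcases fin2 k with rfl | rfl
    · simp only [if_true]
      rw [← Int.cast_add]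
      congr 1
      fin_cases i <;> decide
    · simp
  · intro y hy hhy
    -- row zero of the image is not zero
    have key : ¬ ∀ i, (tr (vec p 0 _ w_sum) y).1 0 i = 0 := by
      intro hz
      have h1 := hz 1
      rw [hh, if_pos rfl] at h1
      rcases hy with rfl | ⟨k, u, hu, h⟩
      · rw [zero_app, add_zero] at h1
        have h2 := cast_small hp (w_small 1) int_zero_small (by rw [Int.cast_zero]; exact h1)
        revert h2
        decide
      · rw [h] at h1
        by_cases hk : (0 : Fin 2) = k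
        · rw [if_pos hk, ← Int.cast_add, add_comm] at h1
          have h2 := cast_small hp (TT_small_add u hu 1) int_zero_small
            (by rw [Int.cast_zero]; exact h1)
          have h3 := TT_other u hu 1 (by decide)
          have h4 : (![(0 : ℤ), 1, 1, 1, -3] 1) = 1 := by decide
          omega
        · rw [if_neg hk, add_zero] at h1
          have h2 := cast_small hp (w_small 1) int_zero_small (by rw [Int.cast_zero]; exact h1)
          revert h2
          decide
    rcases hhy with hz | ⟨k2, u2, hu2, h2⟩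
    · exact absurd (fun i => by rw [hz]; rfl) key
    · rcases fin2 k2 with rfl | rfl
      · rcases hy with rfl | ⟨k, u, hu, h⟩
        · exfalso
          apply TT_w
          have h3 : (![0, 1, 1, 1, -3] : Fin 5 → ℤ) = u2 := by
            funext i
            have h4 := h2 0 i
            rw [hh, if_pos rfl, if_pos rfl, zero_app, add_zero] at h4
            exact cast_small hp (w_small i) (TT_small u2 hu2 i) h4
          rw [h3]
          exact hu2
        · rcases fin2 k with rfl | rfl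
          · have h3 : u = ![1, 0, 0, 0, -1] := by
              apply TT_w_add u hu u2 hu2
              intro i
              have h4 := h2 0 i
              rw [hh, h, if_pos rfl, if_pos rfl, if_pos rfl, ← Int.cast_add, add_comm] at h4
              exact cast_small hp (TT_small_add u hu i) (TT_small u2 hu2 i) h4
            apply Subtype.ext
            funext k' i
            rw [h, vec_apply, h3]
          · exfalso
            have h4 := h2 1 4
            rw [hh, h, if_neg (by decide), if_pos rfl, if_neg (by decide), zero_add] at h4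
            have h5 := cast_small hp (TT_small u hu 4) int_zero_small
              (by rw [Int.cast_zero]; exact h4)
            have h6 := TT_four u hu
            omega
      · exact absurd (fun i => by rw [h2 0 i, if_neg (by decide)]) key

theorem sw_app (p : ℕ) (x : EE (ZMod p)) (k : Fin 2) (i : Fin 5) :
    (sw (ZMod p) x).1 k i = x.1 (Equiv.swap 0 1 k) i := rfl

theorem sw_mem {p : ℕ} (x : EE (ZMod p)) (h : x ∈ XX (ZMod p)) : sw (ZMod p) x ∈ XX (ZMod p) := by
  obtain ⟨k, u, hu, h⟩ := h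
  refine ⟨Equiv.swap 0 1 k, u, hu, ?_⟩
  intro k' i
  rw [sw_app, h]
  rcases fin2 k with rfl | rfl <;> rcases fin2 k' with rfl | rfl <;> simp

theorem sw_sw (p : ℕ) (x : EE (ZMod p)) : sw (ZMod p) (sw (ZMod p) x) = x := by
  apply Subtype.ext
  funext k i
  rw [sw_app, sw_app]
  simp

theorem f1_six {p : ℕ} (hp : 1000 ≤ p) : sw (ZMod p) ∉ PP (ZMod p) := by
  rintro ⟨g, hg⟩
  have ht : g.t = 0 := by
    have h1 : act g 0 = sw (ZMod p) 0 := by rw [hg]
    rw [act_apply, pa_zero, add_zero] at h1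
    rw [h1]
    rfl
  have h2 : act g (vec p 0 _ e_sum) = sw (ZMod p) (vec p 0 _ e_sum) := by rw [hg]
  rw [act_apply, ht, zero_add] at h2
  have h3 := congrArg (fun z : EE (ZMod p) => z.1 0 ((g.a : Equiv.Perm (Fin 5)) 0)) h2
  simp only [pa_apply, vec_apply, sw_app] at h3
  have h4 : ((1 : ℤ) : ZMod p) = ((0 : ℤ) : ZMod p) := by
    simpa using h3
  have h5 := cast_small hp (by decide) (by decide) h4
  omega

theorem t_F1 : S_F1 := by
  intro p _ hp
  refine ⟨f1_one hp, f1_two hp, f1_three hp, f1_four hp, ?_, f1_six hp⟩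
  intro x
  constructor
  · exact sw_mem x
  · intro h
    have h1 := sw_mem _ h
    rwa [sw_sw] at h1

end Pool.Agent.N476.CG
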